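import Pool.Agent.Q62.FN.QOne

/-!
# The curve `x = t, y = t ^ 2, (t ^ (q - 1) + 1) (z ^ q - z) + (t ^ (q - 1) - 1) = 0`
-/

set_option autoImplicit false

namespace Pool.Agent.Q62.FN

open MvPolynomial

/-- The equation of the plane curve (with `z = X 0`, `t = X 1`). -/
noncomputable def gpol (K : Type*) [CommRing K] (q : ℕ) : MvPolynomial (Fin 2) K :=
  (X 1 ^ (q - 1) + 1) * (X 0 ^ q - X 0) + (X 1 ^ (q - 1) - 1)

theorem cast_pred {K : Type*} [Ring K] {q : ℕ} (hq : 2 ≤ q) (hqK : (q : K) = 0) :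
    ((q - 1 : ℕ) : K) = -1 := by
  have : ((q - 1 + 1 : ℕ) : K) = 0 := by
    rw [Nat.sub_add_cancel (by omega), hqK]
  rw [Nat.cast_add, Nat.cast_one] at this
  exact eq_neg_of_add_eq_zero_left this

theorem gpol_fse (K : Type*) [CommRing K] (q : ℕ) : finSuccEquiv K 1 (gpol K q) =
    Polynomial.C (X 0 ^ (q - 1) + 1) * Polynomial.X ^ q -
      Polynomial.C ((X 0 ^ (q - 1) + 1) * 1) * Polynomial.X +
        Polynomial.C (X 0 ^ (q - 1) - 1) := by
  have e1 : (1 : Fin (1 + 1)) = Fin.succ 0 := rfl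
  rw [gpol]
  simp only [map_add, map_mul, map_sub, map_pow, map_one]
  rw [e1, finSuccEquiv_X_succ]
  rw [show (0 : Fin 2) = (0 : Fin (1 + 1)) from rfl, finSuccEquiv_X_zero]
  ring

theorem natDegree_aux {R : Type*} [CommRing R] [IsDomain R] {q : ℕ} (hq : 2 ≤ q) (a b r : R)
    (hb0 : b ≠ 0) : (Polynomial.C b * Polynomial.X ^ q - Polynomial.C r * Polynomial.X +
      Polynomial.C a : Polynomial R).natDegree = q := by
  have h1 : (Polynomial.C b * Polynomial.X ^ q : Polynomial R).natDegree = q :=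
    Polynomial.natDegree_C_mul_X_pow q _ hb0
  have h2 : (Polynomial.C r * Polynomial.X : Polynomial R).natDegree ≤ 1 := by
    simpa using Polynomial.natDegree_C_mul_X_pow_le r 1
  rw [Polynomial.natDegree_add_C,
    Polynomial.natDegree_sub_eq_left_of_natDegree_lt (by omega), h1]

theorem gpol_natDegree (K : Type*) [Field K] {q : ℕ} (hq : 2 ≤ q) :
    (finSuccEquiv K 1 (gpol K q)).natDegree = q := by
  have hb0 : (X 0 ^ (q - 1) + 1 : MvPolynomial (Fin 1) K) ≠ 0 := by
    intro h
    have := congrArg (eval fun _ => 0) h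
    simp only [map_add, map_pow, eval_X, map_one, map_zero] at this
    rw [zero_pow (by omega)] at this
    simp at this
  rw [gpol_fse]
  exact natDegree_aux hq _ _ _ hb0

theorem gpol_irreducible {K : Type*} [Field K] [IsAlgClosed K] {q : ℕ} (hq : 2 ≤ q)
    (hqK : (q : K) = 0) (h2 : (2 : K) ≠ 0) : Irreducible (gpol K q) := by
  obtain ⟨a, ha⟩ : ∃ a : MvPolynomial (Fin 1) K, a = X 0 ^ (q - 1) - 1 := ⟨_, rfl⟩
  obtain ⟨b, hb⟩ : ∃ b : MvPolynomial (Fin 1) K, b = X 0 ^ (q - 1) + 1 := ⟨_, rfl⟩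
  have key : finSuccEquiv K 1 (gpol K q) =
      Polynomial.C b * Polynomial.X ^ q - Polynomial.C (b * 1) * Polynomial.X +
        Polynomial.C a := by
    rw [ha, hb, gpol_fse]
  have hirr : Irreducible (finSuccEquiv K 1 (gpol K q)) := by
    rw [key]
    obtain ⟨ζ, hζ⟩ := IsAlgClosed.exists_pow_nat_eq (-1 : K) (show 0 < q - 1 by omega)
    refine irreducible_AS (fun _ => ζ) 0 hq ?_ ?_ ?_ ?_
    · rw [hb]
      simp [hζ]
    · rw [ha]
      simp only [map_sub, map_pow, eval_X, hζ, map_one]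
      intro h
      apply h2
      linear_combination -h
    · rw [hb]
      simp only [map_add, Derivation.leibniz_pow, pderiv_X_self, Derivation.map_one_eq_zero,
        add_zero, smul_eq_mul, mul_one, nsmul_eq_mul, map_mul, map_pow, eval_X, map_natCast]
      rw [cast_pred hq hqK]
      have hζ0 : ζ ≠ 0 := by
        intro h
        rw [h, zero_pow (by omega)] at hζ
        have : (1 : K) = 0 := by linear_combination hζ
        exact one_ne_zero this
      simp [hζ0]
    · intro c h1 h3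
      have h4 : c ∣ b - a := dvd_sub h3 h1
      have h5 : b - a = C (2 : K) := by
        rw [ha, hb, map_ofNat]
        ring
      rw [h5] at h4
      exact isUnit_of_dvd_unit h4 ((IsUnit.mk0 _ h2).map C)
  exact (MulEquiv.irreducible_iff (finSuccEquiv K 1)).1 hirr

/-- There are points of the curve at which a given polynomial in `t` does not vanish. -/
theorem exists_point (K : Type*) [Field K] [IsAlgClosed K] {q : ℕ} (hq : 2 ≤ q) :
    ∃ v : Fin 2 → K, eval v (gpol K q) = 0 ∧ v 1 ^ (2 * q) ≠ v 1 ^ 2 := by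
  have : Infinite K := IsAlgClosed.instInfinite
  obtain ⟨t, ht⟩ : ∃ t : K, t ^ (2 * q) ≠ t ^ 2 := by
    by_contra h
    push Not at h
    have hne : (Polynomial.X ^ (2 * q) - Polynomial.X ^ 2 : Polynomial K) ≠ 0 := by
      intro h0
      have h1 := congrArg (fun P : Polynomial K => P.coeff (2 * q)) h0
      simp only [Polynomial.coeff_sub, Polynomial.coeff_X_pow, if_true, Polynomial.coeff_zero] at h1
      rw [if_neg (by omega)] at h1
      simp at h1
    refine hne (Polynomial.funext fun x => ?_)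
    simp [h x]
  have htE : t ^ (q - 1) + 1 ≠ 0 := by
    intro h
    apply ht
    have : t ^ (2 * q) = (t ^ (q - 1)) ^ 2 * t ^ 2 := by
      rw [← pow_mul, ← pow_add]
      congr 1
      omega
    rw [this]
    have h' : t ^ (q - 1) = -1 := eq_neg_of_add_eq_zero_left h
    rw [h']
    ring
  set f : Polynomial K := Polynomial.C (t ^ (q - 1) + 1) * (Polynomial.X ^ q - Polynomial.X) +
    Polynomial.C (t ^ (q - 1) - 1) with hf
  have hdeg : f.degree ≠ 0 := by
    have h1 : (Polynomial.X ^ q - Polynomial.X : Polynomial K).natDegree = q := by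
      rw [Polynomial.natDegree_sub_eq_left_of_natDegree_lt]
      · exact Polynomial.natDegree_X_pow q
      · rw [Polynomial.natDegree_X, Polynomial.natDegree_X_pow]
        omega
    have h3 : f.natDegree = q := by
      rw [hf, Polynomial.natDegree_add_C, Polynomial.natDegree_C_mul htE, h1]
    intro h
    have : f.natDegree = 0 := Polynomial.natDegree_eq_zero_iff_degree_le_zero.2 h.le
    omega
  obtain ⟨z, hz⟩ := IsAlgClosed.exists_root f hdeg
  refine ⟨![z, t], ?_, by simpa using ht⟩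
  rw [Polynomial.IsRoot.def, hf] at hz
  simp only [Polynomial.eval_add, Polynomial.eval_mul, Polynomial.eval_sub, Polynomial.eval_pow,
    Polynomial.eval_X, Polynomial.eval_C] at hz
  rw [gpol]
  simpa using hz

/-- The substitution `(x_0, x_1, x_2, x_3, x_4, ...) = (z, t, t ^ 2, 1, 0, ...)`. -/
noncomputable def sub (K : Type*) [CommRing K] (m : ℕ) (i : Fin (m + 4)) : MvPolynomial (Fin 2) K :=
  if i = 0 then X 0 else if i = 1 then X 1 else if i = 2 then X 1 ^ 2 else if i = 3 then 1 else 0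

theorem sub0 (K : Type*) [CommRing K] (m : ℕ) : sub K m 0 = X 0 := by simp [sub]

theorem sub1 (K : Type*) [CommRing K] (m : ℕ) : sub K m 1 = X 1 := by
  rw [sub, if_neg (n01 m).symm, if_pos rfl]

theorem sub2 (K : Type*) [CommRing K] (m : ℕ) : sub K m 2 = X 1 ^ 2 := by
  rw [sub, if_neg (n02 m).symm, if_neg (n12 m).symm, if_pos rfl]

theorem sub3 (K : Type*) [CommRing K] (m : ℕ) : sub K m 3 = 1 := by
  rw [sub, if_neg (n03 m).symm, if_neg (n13 m).symm, if_neg (n23 m).symm, if_pos rfl]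

noncomputable def phi (K : Type*) [CommRing K] (m : ℕ) :
    MvPolynomial (Fin (m + 4)) K →ₐ[K] MvPolynomial (Fin 2) K := aeval (sub K m)

noncomputable def sec (K : Type*) [CommRing K] (m : ℕ) :
    MvPolynomial (Fin 2) K →ₐ[K] MvPolynomial (Fin (m + 4)) K := aeval ![X 0, X 1]

theorem phi_sec (K : Type*) [CommRing K] (m : ℕ) (f : MvPolynomial (Fin 2) K) :
    phi K m (sec K m f) = f := by
  have : (phi K m).comp (sec K m) = AlgHom.id K _ := by
    refine algHom_ext fun i => ?_
    fin_cases i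
    · simp [phi, sec, sub0]
    · simp [phi, sec, sub1]
  exact congrArg (fun g : MvPolynomial (Fin 2) K →ₐ[K] MvPolynomial (Fin 2) K => g f) this

/-- The generators of the ideal of the curve. -/
def gens (K : Type*) [CommRing K] (q m : ℕ) : Set (MvPolynomial (Fin (m + 4)) K) :=
  {sec K m (gpol K q), X 3 - 1, X 2 - X 1 ^ 2} ∪ {f | ∃ i : Fin (m + 4), 4 ≤ i.1 ∧ f = X i}

/-- The ideal of the curve. -/
noncomputable def cideal (K : Type*) [CommRing K] (q m : ℕ) :
    Ideal (MvPolynomial (Fin (m + 4)) K) := Ideal.span (gens K q m)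

theorem sub_mem (K : Type*) [CommRing K] (q m : ℕ) (f : MvPolynomial (Fin (m + 4)) K) :
    f - sec K m (phi K m f) ∈ cideal K q m := by
  rw [← Ideal.Quotient.eq_zero_iff_mem, map_sub, sub_eq_zero]
  have h : (Ideal.Quotient.mkₐ K (cideal K q m)) =
      ((Ideal.Quotient.mkₐ K (cideal K q m)).comp (sec K m)).comp (phi K m) := by
    refine algHom_ext fun i => ?_
    simp only [AlgHom.comp_apply, Ideal.Quotient.mkₐ_eq_mk, phi, aeval_X]
    rw [Ideal.Quotient.mk_eq_mk_iff_sub_mem]
    by_cases h0 : i = 0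
    · rw [h0, sub0]
      simp [sec]
    by_cases h1 : i = 1
    · rw [h1, sub1]
      simp [sec]
    by_cases h2 : i = 2
    · rw [h2, sub2]
      have : (X 2 - sec K m (X 1 ^ 2) : MvPolynomial (Fin (m + 4)) K) = X 2 - X 1 ^ 2 := by
        simp [sec]
      rw [this]
      exact Ideal.subset_span (Or.inl (by simp))
    by_cases h3 : i = 3
    · rw [h3, sub3, map_one]
      exact Ideal.subset_span (Or.inl (by simp))
    rw [sub, if_neg h0, if_neg h1, if_neg h2, if_neg h3, map_zero, sub_zero]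
    refine Ideal.subset_span (Or.inr ⟨i, ?_, rfl⟩)
    have k0 : i.1 ≠ 0 := fun h => h0 (Fin.ext h)
    have k1 : i.1 ≠ 1 := fun h => h1 (Fin.ext (by rw [h, Fin.val_one]))
    have k2 : i.1 ≠ 2 := fun h => h2 (Fin.ext (by rw [h, Fin.val_two]))
    have k3 : i.1 ≠ 3 := fun h => h3 (Fin.ext (by rw [h]; rfl))
    omega
  exact congrArg (fun g : MvPolynomial (Fin (m + 4)) K →ₐ[K]
    (MvPolynomial (Fin (m + 4)) K ⧸ cideal K q m) => g f) h

theorem mem_cideal (K : Type*) [CommRing K] (q m : ℕ) (f : MvPolynomial (Fin (m + 4)) K) :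
    f ∈ cideal K q m ↔ gpol K q ∣ phi K m f := by
  constructor
  · intro h
    rw [cideal] at h
    rw [← Ideal.mem_span_singleton, ← Ideal.mem_comap]
    revert h
    apply Ideal.span_le.2
    rintro x (hx | ⟨i, hi, rfl⟩)
    · rw [SetLike.mem_coe, Ideal.mem_comap, Ideal.mem_span_singleton]
      rcases hx with rfl | rfl | rfl
      · rw [phi_sec]
      · rw [phi, map_sub, aeval_X, sub3, map_one, sub_self]
        exact dvd_zero _
      · rw [phi, map_sub, map_pow, aeval_X, aeval_X, sub2, sub1, sub_self]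
        exact dvd_zero _
    · rw [SetLike.mem_coe, Ideal.mem_comap, Ideal.mem_span_singleton, phi, aeval_X, sub,
        if_neg, if_neg, if_neg, if_neg]
      · exact dvd_zero _
      · intro h
        rw [h] at hi
        have h3 : ((3 : Fin (m + 4)) : ℕ) = 3 := rfl
        omega
      · intro h
        rw [h, Fin.val_two] at hi
        omega
      · intro h
        rw [h, Fin.val_one] at hi
        omega
      · intro h
        rw [h, Fin.val_zero] at hi
        omega
  · rintro ⟨c, hc⟩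
    have h1 := sub_mem K q m f
    rw [hc, map_mul] at h1
    have h2 : sec K m (gpol K q) * sec K m c ∈ cideal K q m :=
      Ideal.mul_mem_right _ _ (Ideal.subset_span (Or.inl (by simp)))
    have := Ideal.add_mem _ h1 h2
    rwa [sub_add_cancel] at this

theorem map_gens {κ K : Type*} [CommRing κ] [CommRing K] (f : κ →+* K) (q m : ℕ) :
    (cideal κ q m).map (map f) = cideal K q m := by
  have hsec : map f (sec κ m (gpol κ q)) = sec K m (gpol K q) := by
    simp [sec, gpol]
  rw [cideal, cideal, Ideal.map_span]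
  congr 1
  ext x
  constructor
  · rintro ⟨y, (hy | ⟨i, hi, rfl⟩), rfl⟩
    · left
      rcases hy with rfl | rfl | rfl
      · rw [hsec]
        simp
      · simp
      · simp
    · right
      exact ⟨i, hi, by simp⟩
  · rintro (hx | ⟨i, hi, rfl⟩)
    · rcases hx with rfl | rfl | rfl
      · exact ⟨_, Or.inl (Or.inl rfl), hsec⟩
      · exact ⟨X 3 - 1, Or.inl (by simp), by simp⟩
      · exact ⟨X 2 - X 1 ^ 2, Or.inl (by simp), by simp⟩
    · exact ⟨X i, Or.inr ⟨i, hi, rfl⟩, by simp⟩

/-! ### The ideal over an algebraically closed field -/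

section main

variable {K : Type*} [Field K] [IsAlgClosed K] {q : ℕ}

theorem gpol_prime (hq : 2 ≤ q) (hqK : (q : K) = 0) (h2 : (2 : K) ≠ 0) : Prime (gpol K q) :=
  (gpol_irreducible hq hqK h2).prime

theorem cideal_prime (hq : 2 ≤ q) (hqK : (q : K) = 0) (h2 : (2 : K) ≠ 0) (m : ℕ) :
    (cideal K q m).IsPrime := by
  have hp := gpol_prime hq hqK h2
  refine ⟨?_, ?_⟩
  · rw [Ne, Ideal.eq_top_iff_one, mem_cideal, map_one]
    exact fun h => hp.not_isUnit (isUnit_of_dvd_one h)
  · intro x y h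
    rw [mem_cideal, map_mul] at h
    rw [mem_cideal, mem_cideal]
    exact hp.dvd_or_dvd h

theorem wb_le {x : WithBot ℕ∞} (h : x + 1 ≤ 2) : x ≤ 1 := by
  induction x using WithBot.recBotCoe with
  | bot => exact bot_le
  | coe x =>
    induction x using ENat.recTopCoe with
    | top =>
      exfalso
      have h' : ((⊤ + 1 : ℕ∞) : WithBot ℕ∞) ≤ ((2 : ℕ∞) : WithBot ℕ∞) := h
      rw [WithBot.coe_le_coe] at h'
      simp at h'
    | coe n =>
      have h' : ((n + 1 : ℕ) : ℕ∞) ≤ ((2 : ℕ) : ℕ∞) := WithBot.coe_le_coe.1 h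
      have h'' : n + 1 ≤ 2 := by exact_mod_cast h'
      have : ((n : ℕ∞) : WithBot ℕ∞) ≤ ((1 : ℕ∞) : WithBot ℕ∞) := by
        rw [WithBot.coe_le_coe]
        exact_mod_cast (by omega : n ≤ 1)
      exact this

theorem wb_lt {x : WithBot ℕ∞} (h : x < 1) : x ≤ 0 := by
  induction x using WithBot.recBotCoe with
  | bot => exact bot_le
  | coe x =>
    have h1 : x < 1 := WithBot.coe_lt_coe.1 h
    have h2 : x = 0 := Order.lt_one_iff.1 h1
    rw [h2]
    exact le_rfl

theorem quot_dim (hq : 2 ≤ q) (hqK : (q : K) = 0) (h2 : (2 : K) ≠ 0) :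
    ringKrullDim (MvPolynomial (Fin 2) K ⧸ Ideal.span {gpol K q}) = 1 := by
  have hp := gpol_prime hq hqK h2
  have hP : (Ideal.span {gpol K q}).IsPrime := (Ideal.span_singleton_prime hp.ne_zero).2 hp
  have : IsDomain (MvPolynomial (Fin 2) K ⧸ Ideal.span {gpol K q}) := Ideal.Quotient.isDomain _
  apply le_antisymm
  · have h1 := ringKrullDim_quotient_succ_le_of_nonZeroDivisor
      (mem_nonZeroDivisors_of_ne_zero hp.ne_zero)
    rw [MvPolynomial.ringKrullDim_of_isNoetherianRing, ringKrullDim_eq_zero_of_field,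
      Nat.card_eq_fintype_card, Fintype.card_fin, zero_add] at h1
    exact wb_le h1
  · by_contra hlt
    rw [not_le] at hlt
    have h1 : ringKrullDim (MvPolynomial (Fin 2) K ⧸ Ideal.span {gpol K q}) ≤ 0 := wb_lt hlt
    have h3 : Ring.KrullDimLE 0 (MvPolynomial (Fin 2) K ⧸ Ideal.span {gpol K q}) :=
      Ring.krullDimLE_iff.2 (by simpa using h1)
    have h4 : IsField (MvPolynomial (Fin 2) K ⧸ Ideal.span {gpol K q}) :=
      Ring.KrullDimLE.isField_of_isDomain
    obtain ⟨v, hv, hv1⟩ := exists_point K hq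
    -- the evaluation at the point `v`
    let e : (MvPolynomial (Fin 2) K ⧸ Ideal.span {gpol K q}) →+* K :=
      Ideal.Quotient.lift _ (eval v) (by
        intro a ha
        rw [Ideal.mem_span_singleton] at ha
        obtain ⟨c, rfl⟩ := ha
        rw [map_mul, hv, zero_mul])
    have h5 : Ideal.Quotient.mk (Ideal.span {gpol K q}) (X 1 - C (v 1)) ≠ 0 := by
      rw [Ne, Ideal.Quotient.eq_zero_iff_mem, Ideal.mem_span_singleton]
      rintro ⟨c, hc⟩
      have h6 := congrArg (finSuccEquiv K 1) hc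
      have e1 : (1 : Fin (1 + 1)) = Fin.succ 0 := rfl
      rw [map_sub, e1, finSuccEquiv_X_succ, ← algebraMap_eq, AlgEquiv.commutes, map_mul] at h6
      have h7 : (finSuccEquiv K 1 (gpol K q)).natDegree = 0 := by
        have h8 : (Polynomial.C (X 0 - C (v 1)) : Polynomial (MvPolynomial (Fin 1) K)) =
            finSuccEquiv K 1 (gpol K q) * finSuccEquiv K 1 c := by
          rw [← h6, map_sub]
          rfl
        have h9 : (Polynomial.C (X 0 - C (v 1)) : Polynomial (MvPolynomial (Fin 1) K)) ≠ 0 := by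
          rw [Polynomial.C_ne_zero]
          intro h10
          have := congrArg (eval fun _ => v 1 + 1) h10
          simp at this
        have h11 := Polynomial.natDegree_le_of_dvd (Dvd.intro _ h8.symm) h9
        rw [Polynomial.natDegree_C] at h11
        omega
      have h12 := gpol_natDegree K hq
      omega
    obtain ⟨w, hw⟩ := h4.mul_inv_cancel h5
    have h6 := congrArg e hw
    rw [map_mul, map_one] at h6
    have h7 : e (Ideal.Quotient.mk (Ideal.span {gpol K q}) (X 1 - C (v 1))) = 0 := by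
      simp [e]
    rw [h7, zero_mul] at h6
    exact zero_ne_one h6

theorem phi_surjective (m : ℕ) : Function.Surjective (phi K m) := fun f => ⟨sec K m f, phi_sec K m f⟩

theorem cideal_dim (hq : 2 ≤ q) (hqK : (q : K) = 0) (h2 : (2 : K) ≠ 0) (m : ℕ) :
    ringKrullDim (MvPolynomial (Fin (m + 4)) K ⧸ cideal K q m) = 1 := by
  rw [← quot_dim hq hqK h2]
  let ψ : MvPolynomial (Fin (m + 4)) K →+* (MvPolynomial (Fin 2) K ⧸ Ideal.span {gpol K q}) :=
    (Ideal.Quotient.mk (Ideal.span {gpol K q})).comp (phi K m).toRingHom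
  have hψ : Function.Surjective ψ :=
    Ideal.Quotient.mk_surjective.comp (phi_surjective m)
  have hker : RingHom.ker ψ = cideal K q m := by
    ext f
    rw [RingHom.mem_ker, mem_cideal, ← Ideal.mem_span_singleton]
    exact Ideal.Quotient.eq_zero_iff_mem
  rw [← hker]
  exact ringKrullDim_eq_of_ringEquiv (RingHom.quotientKerEquivOfSurjective hψ)

/-- The hypersurface contains the curve. -/
theorem surf_mem (hq : 2 ≤ q) (m : ℕ) : surf K q m ∈ cideal K q m := by
  rw [mem_cideal]
  have h : (X 1 : MvPolynomial (Fin 2) K) ^ q = X 1 * X 1 ^ (q - 1) := by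
    rw [← pow_succ']
    congr 1
    omega
  refine ⟨(X 1 ^ q - X 1) * X 1, ?_⟩
  rw [surf, art, art, art, phi]
  simp only [map_add, map_mul, map_sub, map_pow, aeval_X, sub0, sub1, sub2, sub3, one_pow, mul_one]
  rw [gpol, pow_right_comm, h]
  ring

theorem not_dvd_point {v : Fin 2 → K} (hv : eval v (gpol K q) = 0) {f : MvPolynomial (Fin 2) K}
    (hf : eval v f ≠ 0) : ¬ gpol K q ∣ f := by
  rintro ⟨c, rfl⟩
  rw [map_mul, hv, zero_mul] at hf
  exact hf rfl

theorem phi_pd_one (hq : 2 ≤ q) (hqK : (q : K) = 0) (m : ℕ) :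
    phi K m (pderiv 1 (surf K q m)) = - (2 * (X 1 ^ q - X 1)) := by
  rw [pd_one K hq hqK, art, phi]
  simp only [map_neg, map_mul, map_sub, map_pow, aeval_X, sub1, sub3, one_pow, mul_one, map_ofNat]

theorem phi_pd_zero (hq : 2 ≤ q) (hqK : (q : K) = 0) (m : ℕ) :
    phi K m (pderiv 0 (surf K q m)) = - ((X 1 ^ q - X 1) * (X 1 ^ q + X 1)) := by
  rw [pd_zero K hq hqK, art, phi]
  simp only [map_neg, map_mul, map_sub, map_pow, aeval_X, sub2, sub3, one_pow, mul_one, one_mul]
  ring

/-- The quotient of the two derivatives is not a `p`-th power on the curve. -/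
theorem curve_key (hq : 2 ≤ q) (hqK : (q : K) = 0) (h2 : (2 : K) ≠ 0) {p : ℕ}
    (hpK : (p : K) = 0) (m : ℕ) (a b : MvPolynomial (Fin (m + 4)) K)
    (h : pderiv 1 (surf K q m) * b ^ p - pderiv 0 (surf K q m) * a ^ p ∈ cideal K q m) :
    b ∈ cideal K q m := by
  have hprime := gpol_prime hq hqK h2
  obtain ⟨v, hv, hv1⟩ := exists_point K hq
  rw [mem_cideal] at h ⊢
  rw [map_sub, map_mul, map_mul, phi_pd_one hq hqK, phi_pd_zero hq hqK, map_pow, map_pow] at h
  obtain ⟨α, hα⟩ : ∃ α, α = phi K m a := ⟨_, rfl⟩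
  obtain ⟨β, hβ⟩ : ∃ β, β = phi K m b := ⟨_, rfl⟩
  rw [← hα, ← hβ] at h
  rw [← hβ]
  have hX : ∀ (i : Fin 2) (n : ℕ), (n : K) = 0 → ∀ (x : MvPolynomial (Fin 2) K),
      pderiv i (x ^ n) = 0 := by
    intro i n hn x
    rw [Derivation.leibniz_pow, nsmul_eq_mul]
    have : ((n : ℕ) : MvPolynomial (Fin 2) K) = 0 := by
      rw [← map_natCast (C : K →+* MvPolynomial (Fin 2) K), hn, map_zero]
    rw [this, zero_mul]
  have hc2 : ∀ i : Fin 2, pderiv i (2 : MvPolynomial (Fin 2) K) = 0 := by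
    intro i
    rw [← map_ofNat (C : K →+* MvPolynomial (Fin 2) K), pderiv_C]
  have n10 : (1 : Fin 2) ≠ 0 := by decide
  have n01' : (0 : Fin 2) ≠ 1 := by decide
  -- first cancel the factor `t ^ q - t`
  have hE : eval v ((X 1 ^ q - X 1) * (X 1 ^ q + X 1) : MvPolynomial (Fin 2) K) ≠ 0 := by
    simp only [map_mul, map_sub, map_add, map_pow, eval_X]
    intro h0
    apply hv1
    linear_combination h0
  have h3 : gpol K q ∣ (X 1 ^ q - X 1) * ((X 1 ^ q + X 1) * α ^ p - 2 * β ^ p) := by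
    refine h.trans (_root_.dvd_of_eq ?_)
    ring
  have h4 : ¬ gpol K q ∣ (X 1 ^ q - X 1) := by
    apply not_dvd_point hv
    rw [map_mul] at hE
    exact left_ne_zero_of_mul hE
  obtain ⟨c, hc⟩ := (hprime.dvd_or_dvd h3).resolve_left h4
  -- differentiate
  have k1 := congrArg (pderiv 1) hc
  have k0 := congrArg (pderiv 0) hc
  have dG0 : pderiv 0 (gpol K q) = - (X 1 ^ (q - 1) + 1) := by
    rw [gpol, map_add, map_sub, Derivation.leibniz, map_sub, hX 0 q hqK, pderiv_X_self, map_add,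
      Derivation.leibniz_pow, pderiv_X_of_ne n10]
    simp
  have hone : ∀ i : Fin 2, pderiv i (1 : MvPolynomial (Fin 2) K) = 0 := fun i => by simp
  rw [map_sub, Derivation.leibniz, Derivation.leibniz, Derivation.leibniz, hX 1 p hpK,
    hX 1 p hpK, hc2, map_add, hX 1 q hqK, pderiv_X_self] at k1
  rw [map_sub, Derivation.leibniz, Derivation.leibniz, Derivation.leibniz, hX 0 p hpK,
    hX 0 p hpK, hc2, map_add, hX 0 q hqK, pderiv_X_of_ne n10, dG0] at k0
  simp only [smul_eq_mul, mul_zero, zero_add, sub_zero, mul_one, add_zero] at k1 k0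
  have h5 : gpol K q ∣ (X 1 ^ (q - 1) + 1) * α ^ p := by
    refine ⟨(X 1 ^ (q - 1) + 1) * pderiv 1 c + pderiv 1 (gpol K q) * pderiv 0 c, ?_⟩
    linear_combination (X 1 ^ (q - 1) + 1) * k1 + pderiv 1 (gpol K q) * k0
  have h6 : ¬ gpol K q ∣ (X 1 ^ (q - 1) + 1) := by
    apply not_dvd_point hv
    intro h0
    apply hE
    have h7 : (X 1 : MvPolynomial (Fin 2) K) ^ q = X 1 * X 1 ^ (q - 1) := by
      rw [← pow_succ']
      congr 1
      omega
    rw [h7, show ((X 1 * X 1 ^ (q - 1) - X 1) * (X 1 * X 1 ^ (q - 1) + X 1) :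
      MvPolynomial (Fin 2) K) = (X 1 * X 1 ^ (q - 1) - X 1) * X 1 * (X 1 ^ (q - 1) + 1) by ring,
      map_mul, h0, mul_zero]
  have h7 : gpol K q ∣ α ^ p := (hprime.dvd_or_dvd h5).resolve_left h6
  have h8 : gpol K q ∣ 2 * β ^ p := by
    have h9 : 2 * β ^ p = (X 1 ^ q + X 1) * α ^ p - gpol K q * c := by
      linear_combination -hc
    rw [h9]
    exact dvd_sub (h7.mul_left _) (Dvd.intro _ rfl)
  have h10 : ¬ gpol K q ∣ (2 : MvPolynomial (Fin 2) K) := by
    apply not_dvd_point hv
    rw [map_ofNat]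
    exact h2
  exact hprime.dvd_of_dvd_pow ((hprime.dvd_or_dvd h8).resolve_left h10)

end main

/-- The Gauss map is separable on the curve. -/
theorem separableOn {κ : Type} [Field κ] {q m p : ℕ} (hq : 2 ≤ q)
    (hqK : (q : AlgebraicClosure κ) = 0) (hpK : (p : AlgebraicClosure κ) = 0)
    (h2 : (2 : AlgebraicClosure κ) ≠ 0) :
    SeparableOn (n := m + 3) p (surf κ q m) (cideal (AlgebraicClosure κ) q m) := by
  have hF : geom (n := m + 3) (surf κ q m) = surf (AlgebraicClosure κ) q m := map_surf _ q m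
  have hP := cideal_prime hq hqK h2 m
  have hdom : IsDomain (MvPolynomial (Fin (m + 3 + 1)) (AlgebraicClosure κ) ⧸ cideal (AlgebraicClosure κ) q m) :=
    Ideal.Quotient.isDomain _
  have hinj : Function.Injective (algebraMap (MvPolynomial (Fin (m + 3 + 1)) (AlgebraicClosure κ) ⧸ cideal (AlgebraicClosure κ) q m)
    (FractionRing (MvPolynomial (Fin (m + 3 + 1)) (AlgebraicClosure κ) ⧸ cideal (AlgebraicClosure κ) q m))) :=
      IsFractionRing.injective _ _
  refine ⟨1, 0, ?_, ?_⟩
  · rw [hF, mem_cideal, phi_pd_zero hq hqK, dvd_neg]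
    obtain ⟨v, hv, hv1⟩ := exists_point (AlgebraicClosure κ) hq
    apply not_dvd_point hv
    simp only [map_mul, map_sub, map_add, map_pow, eval_X]
    intro h0
    apply hv1
    linear_combination h0
  · intro u hu
    obtain ⟨a', b', hb', hab⟩ := IsFractionRing.div_surjective
      (A := MvPolynomial (Fin (m + 3 + 1)) (AlgebraicClosure κ) ⧸ cideal (AlgebraicClosure κ) q m) u
    have hb0 : b' ≠ 0 := nonZeroDivisors.ne_zero hb'
    have hb1 : algebraMap _ (FractionRing (MvPolynomial (Fin (m + 3 + 1)) (AlgebraicClosure κ) ⧸ cideal (AlgebraicClosure κ) q m)) b' ≠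
        0 := by
      rw [Ne, map_eq_zero_iff _ hinj]
      exact hb0
    obtain ⟨a, rfl⟩ := Ideal.Quotient.mk_surjective a'
    obtain ⟨b, rfl⟩ := Ideal.Quotient.mk_surjective b'
    rw [← hab, div_pow, div_mul_eq_mul_div, eq_div_iff (pow_ne_zero _ hb1)] at hu
    simp only [← map_pow, ← map_mul] at hu
    have h8 := hinj hu
    rw [← sub_eq_zero, ← map_sub, Ideal.Quotient.eq_zero_iff_mem, hF] at h8
    apply hb0
    rw [Ideal.Quotient.eq_zero_iff_mem]
    refine curve_key hq hqK h2 hpK m a b ?_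
    rwa [mul_comm (a ^ p)] at h8

theorem isCurve {κ : Type} [Field κ] {q m : ℕ} (hq : 2 ≤ q)
    (hqK : (q : AlgebraicClosure κ) = 0) (h2 : (2 : AlgebraicClosure κ) ≠ 0) :
    IsCurve (n := m + 3) (cideal (AlgebraicClosure κ) q m) 3 where
  prime := cideal_prime hq hqK h2 m
  affine := Ideal.subset_span (Or.inl (by simp))
  dim := cideal_dim hq hqK h2 m
  defined := ⟨cideal κ q m, (map_gens _ q m).symm⟩

theorem main_two (n p : ℕ) (hn : 3 ≤ n) (hp : p.Prime) (hp2 : p ≠ 2) (κ : Type) [Field κ]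
    [Fintype κ] [CharP κ p] :
    ∃ F : MvPolynomial (Fin (n + 1)) κ, (∃ d, 0 < d ∧ F.IsHomogeneous d) ∧
      Irreducible (geom F) ∧ FrobeniusNonclassical F ∧
      ∃ P : Ideal (MvPolynomial (Fin (n + 1)) (AlgebraicClosure κ)),
        (∃ j, IsCurve P j) ∧ geom F ∈ P ∧ SeparableOn p F P := by
  obtain ⟨m, rfl⟩ := Nat.exists_eq_add_of_le' hn
  have : Fact p.Prime := ⟨hp⟩
  set q := Fintype.card κ with hqdef
  have hq2 : 2 ≤ q := by
    have := Fintype.one_lt_card (α := κ)
    omega
  have hqκ : (q : κ) = 0 := Nat.cast_card_eq_zero κ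
  have hpκ : (p : κ) = 0 := CharP.cast_eq_zero κ p
  have hqK : (q : AlgebraicClosure κ) = 0 := by
    rw [← map_natCast (algebraMap κ (AlgebraicClosure κ)), hqκ, map_zero]
  have hpK : (p : AlgebraicClosure κ) = 0 := by
    rw [← map_natCast (algebraMap κ (AlgebraicClosure κ)), hpκ, map_zero]
  have h2 : (2 : AlgebraicClosure κ) ≠ 0 := by
    have : CharP (AlgebraicClosure κ) p := charP_of_injective_algebraMap
      (algebraMap κ (AlgebraicClosure κ)).injective p
    intro h
    have h' : ((2 : ℕ) : AlgebraicClosure κ) = 0 := by exact_mod_cast h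
    rw [CharP.cast_eq_zero_iff (AlgebraicClosure κ) p] at h'
    exact hp2 ((Nat.prime_dvd_prime_iff_eq hp Nat.prime_two).1 h')
  refine ⟨surf κ q m, ⟨2 * q, by omega, surf_hom κ (by omega) m⟩, ?_, surf_dvd κ hq2 hqκ m,
    cideal (AlgebraicClosure κ) q m, ⟨3, isCurve hq2 hqK h2⟩, ?_, separableOn hq2 hqK hpK h2⟩
  · rw [geom, map_surf]
    exact surf_irreducible hq2 hqK (exists_pow_ne _ hq2) m
  · rw [geom, map_surf]
    exact surf_mem hq2 m

end Pool.Agent.Q62.FN
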