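import Mathlib

/-!
# Frobenius nonclassical hypersurfaces and their Gauss maps: definitions
-/

set_option autoImplicit false

namespace Pool.Agent.Q62.FN

open MvPolynomial

variable {κ : Type} [Field κ] {n : ℕ}

/-- The hypersurface `F = 0` in `P^n` over the finite field `κ` with `q` elements is Frobenius
nonclassical: the form `F` divides `x₀ ^ q F₀ + ... + xₙ ^ q Fₙ`, where `Fᵢ = ∂F / ∂xᵢ`. -/
def FrobeniusNonclassical [Fintype κ] (F : MvPolynomial (Fin (n + 1)) κ) : Prop :=
  F ∣ ∑ i, X i ^ Fintype.card κ * pderiv i F

/-- The form `F` as a form over the algebraic closure `k` of `κ`. -/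
noncomputable def geom (F : MvPolynomial (Fin (n + 1)) κ) :
    MvPolynomial (Fin (n + 1)) (AlgebraicClosure κ) :=
  map (algebraMap κ (AlgebraicClosure κ)) F

/-- The homogeneous coordinate ring `k[x₀, ..., xₙ] / (F)` of the hypersurface `F = 0`, where `k` is
the algebraic closure of `κ`. -/
abbrev CoordRing (F : MvPolynomial (Fin (n + 1)) κ) : Type :=
  MvPolynomial (Fin (n + 1)) (AlgebraicClosure κ) ⧸ Ideal.span {geom F}

/-- The total ring of fractions of the homogeneous coordinate ring of `F = 0`. It contains the ring
of rational functions on the hypersurface `F = 0` as its part of degree zero. -/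
abbrev Functions (F : MvPolynomial (Fin (n + 1)) κ) : Type := FractionRing (CoordRing F)

/-- The class of the coordinate `Fᵢ = ∂F / ∂xᵢ` of the Gauss map `P ↦ (F₀(P) : ... : Fₙ(P))`. -/
noncomputable def gauss (F : MvPolynomial (Fin (n + 1)) κ) (i : Fin (n + 1)) : Functions F :=
  algebraMap (CoordRing F) (Functions F) (Ideal.Quotient.mk _ (pderiv i (geom F)))

/-- The Gauss map of `F = 0` is `(g₀ ^ p : ... : gₙ ^ p)` for elements `gᵢ` of the total ring of
fractions of the homogeneous coordinate ring (for example rational functions on the hypersurface),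
not all zero on any component of the hypersurface, that is, generating the unit ideal. -/
def GaussHasPowers (p : ℕ) (F : MvPolynomial (Fin (n + 1)) κ) : Prop :=
  ∃ g : Fin (n + 1) → Functions F, Ideal.span (Set.range g) = ⊤ ∧
    ∀ i j, gauss F i * g j ^ p = gauss F j * g i ^ p

/-- Let `k` be the algebraic closure of `κ`. The ideal `P` of `k[x₀, ..., xₙ]` is the ideal of the
affine part `x_j = 1` of an irreducible curve in `P^n` over `k` which is defined over `κ` and not
contained in the hyperplane `x_j = 0`: it is a prime ideal containing `x_j - 1`, its residue ring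
has dimension one, and it is generated by polynomials with coefficients in `κ`. -/
structure IsCurve (P : Ideal (MvPolynomial (Fin (n + 1)) (AlgebraicClosure κ)))
    (j : Fin (n + 1)) : Prop where
  prime : P.IsPrime
  affine : X j - 1 ∈ P
  dim : ringKrullDim (MvPolynomial (Fin (n + 1)) (AlgebraicClosure κ) ⧸ P) = 1
  defined : ∃ P₀ : Ideal (MvPolynomial (Fin (n + 1)) κ),
    P = P₀.map (map (algebraMap κ (AlgebraicClosure κ)))

/-- The Gauss map of `F = 0` restricts to a separable rational map on the curve with the ideal `P`:
the coordinates `Fᵢ = ∂F / ∂xᵢ` do not all vanish on the curve, and some quotient `Fᵢ / F_l` of two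
of them (with `F_l` not identically zero on the curve) is not the `p`-th power of an element of the
function field of the curve. -/
def SeparableOn (p : ℕ) (F : MvPolynomial (Fin (n + 1)) κ)
    (P : Ideal (MvPolynomial (Fin (n + 1)) (AlgebraicClosure κ))) : Prop :=
  ∃ i l, pderiv l (geom F) ∉ P ∧
    ∀ u : FractionRing (MvPolynomial (Fin (n + 1)) (AlgebraicClosure κ) ⧸ P),
      algebraMap (MvPolynomial (Fin (n + 1)) (AlgebraicClosure κ) ⧸ P) _
          (Ideal.Quotient.mk P (pderiv i (geom F))) ≠
        u ^ p * algebraMap (MvPolynomial (Fin (n + 1)) (AlgebraicClosure κ) ⧸ P) _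
          (Ideal.Quotient.mk P (pderiv l (geom F)))

end Pool.Agent.Q62.FN
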