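import Mathlib

/-!
# An irreducibility criterion of Artin-Schreier type
-/

set_option autoImplicit false

namespace Pool.Agent.Q62.FN

open Polynomial

/-- Irreducibility can be tested on the reverse polynomial. -/
theorem irreducible_of_reverse {R : Type*} [CommRing R] [IsDomain R] {f : R[X]}
    (h0 : f.coeff 0 ≠ 0) (h : Irreducible f.reverse) : Irreducible f := by
  have key : ∀ g k : R[X], f = g * k → IsUnit g.reverse → IsUnit g := by
    intro g k hgk hu
    have hg0 : g.coeff 0 ≠ 0 := by
      intro hz
      apply h0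
      rw [hgk, mul_coeff_zero, hz, zero_mul]
    have htr : g.natTrailingDegree = 0 := natTrailingDegree_eq_zero.2 (Or.inr hg0)
    have hd : g.natDegree = 0 := by
      have h1 := natDegree_eq_zero_of_isUnit hu
      rw [reverse_natDegree, htr] at h1
      simpa using h1
    obtain ⟨c, rfl⟩ := natDegree_eq_zero.1 hd
    simpa using hu
  refine ⟨fun hu => ?_, fun g k hgk => ?_⟩
  · apply h.not_isUnit
    obtain ⟨c, hc, hc'⟩ := Polynomial.isUnit_iff.1 hu
    rw [← hc', reverse_C]
    exact hc' ▸ hu
  · have h1 : f.reverse = g.reverse * k.reverse := by rw [hgk, reverse_mul_of_domain]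
    rcases h.isUnit_or_isUnit h1 with h2 | h2
    · exact Or.inl (key g k hgk h2)
    · exact Or.inr (key k g (by rw [hgk, mul_comm]) h2)

/-- If `b` lies in the square of the kernel of an evaluation, its derivatives vanish there. -/
theorem eval_pderiv_of_mem_sq {σ K : Type*} [Field K] (v : σ → K) (i : σ)
    {b : MvPolynomial σ K}
    (hb : b ∈ (RingHom.ker (MvPolynomial.eval v)) ^ 2) :
    MvPolynomial.eval v (MvPolynomial.pderiv i b) = 0 := by
  rw [pow_two] at hb
  refine Submodule.mul_induction_on hb ?_ ?_
  · intro x hx y hy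
    rw [RingHom.mem_ker] at hx hy
    rw [Derivation.leibniz, map_add, smul_eq_mul, smul_eq_mul, map_mul, map_mul, hx, hy]
    simp
  · intro x y hx hy
    rw [map_add, map_add, hx, hy, add_zero]

/-- The polynomial `b T ^ q - b r T + a` is irreducible if `b` has a simple zero at a point where `a`
does not vanish and `a`, `b` have no common factors. -/
theorem irreducible_AS {σ K : Type*} [Field K] (v : σ → K) (i : σ) {a b r : MvPolynomial σ K}
    {q : ℕ} (hq : 2 ≤ q) (hb : MvPolynomial.eval v b = 0) (ha : MvPolynomial.eval v a ≠ 0)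
    (hd : MvPolynomial.eval v (MvPolynomial.pderiv i b) ≠ 0)
    (hc : ∀ c, c ∣ a → c ∣ b → IsUnit c) :
    Irreducible (C b * X ^ q - C (b * r) * X + C a : (MvPolynomial σ K)[X]) := by
  have ha0 : a ≠ 0 := fun h => ha (by rw [h, map_zero])
  have hb0 : b ≠ 0 := fun h => hd (by rw [h, map_zero, map_zero])
  set f : (MvPolynomial σ K)[X] := C b * X ^ q - C (b * r) * X + C a with hf
  set g : (MvPolynomial σ K)[X] := C a * X ^ q - C (b * r) * X ^ (q - 1) + C b with hg
  have hfd : f.natDegree = q := by
    rw [hf]
    have h1 : (C b * X ^ q : (MvPolynomial σ K)[X]).natDegree = q := natDegree_C_mul_X_pow q b hb0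
    have h2 : (C (b * r) * X : (MvPolynomial σ K)[X]).natDegree ≤ 1 := by
      simpa using natDegree_C_mul_X_pow_le (b * r) 1
    rw [natDegree_add_C]
    rw [natDegree_sub_eq_left_of_natDegree_lt (by omega), h1]
  have hrev : f.reverse = g := by
    have hsplit : f.reverse = f.reflect q := by rw [reverse, hfd]
    rw [hsplit, hf, hg, reflect_add, reflect_sub, reflect_C_mul_X_pow, reflect_C, reflect_C_mul]
    have hX : (X : (MvPolynomial σ K)[X]).reflect q = X ^ (q - 1) := by
      have := reflect_monomial (R := MvPolynomial σ K) q 1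
      rw [pow_one] at this
      rw [this, revAt_le (by omega)]
    rw [hX, revAt_le le_rfl, Nat.sub_self, pow_zero, mul_one]
    ring
  have hf0 : f.coeff 0 = a := by
    rw [hf]
    simp only [coeff_add, coeff_sub, coeff_C_mul, coeff_X_pow, coeff_X_zero, coeff_C_zero]
    rw [if_neg (by omega)]
    ring
  refine irreducible_of_reverse (by rw [hf0]; exact ha0) ?_
  rw [hrev]
  have hgd : g.natDegree = q := by
    rw [hg]
    have h1 : (C a * X ^ q : (MvPolynomial σ K)[X]).natDegree = q := natDegree_C_mul_X_pow q a ha0
    have h2 : (C (b * r) * X ^ (q - 1) : (MvPolynomial σ K)[X]).natDegree ≤ q - 1 :=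
      natDegree_C_mul_X_pow_le _ _
    rw [natDegree_add_C]
    rw [natDegree_sub_eq_left_of_natDegree_lt (by omega), h1]
  have hg0' : g ≠ 0 := by
    intro h
    rw [h, natDegree_zero] at hgd
    omega
  have hcoeff : ∀ k, g.coeff k = (if k = q then a else 0) - (if k = q - 1 then b * r else 0) +
      (if k = 0 then b else 0) := by
    intro k
    rw [hg]
    simp only [coeff_add, coeff_sub, coeff_C_mul, coeff_X_pow, coeff_C]
    simp
  have hPP : (RingHom.ker (MvPolynomial.eval v)).IsPrime := RingHom.ker_isPrime _
  refine irreducible_of_eisenstein_criterion hPP ?_ ?_ ?_ ?_ ?_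
  · rw [leadingCoeff, hgd, hcoeff, if_pos rfl, if_neg (by omega), if_neg (by omega), RingHom.mem_ker]
    simpa using ha
  · intro k hk
    have hk' : k < q := by
      rw [degree_eq_natDegree hg0', hgd] at hk
      exact_mod_cast hk
    rw [hcoeff, if_neg (by omega), RingHom.mem_ker]
    split_ifs <;> simp [hb]
  · rw [← natDegree_pos_iff_degree_pos, hgd]
    omega
  · rw [hcoeff, if_neg (by omega), if_neg (by omega), if_pos rfl]
    intro h
    apply hd
    apply eval_pderiv_of_mem_sq v i
    simpa using h
  · intro c hc'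
    apply hc
    · have := (C_dvd_iff_dvd_coeff _ _).1 hc' q
      rw [hcoeff, if_pos rfl, if_neg (by omega), if_neg (by omega)] at this
      simpa using this
    · have := (C_dvd_iff_dvd_coeff _ _).1 hc' 0
      rw [hcoeff, if_neg (by omega), if_neg (by omega), if_pos rfl] at this
      simpa using this

end Pool.Agent.Q62.FN
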