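import Pool.Agent.Q62.FN.Surf
import Pool.Agent.Q62.FN.Defs

/-!
# The Gauss map of the hypersurface is not given by powers of `p`
-/

set_option autoImplicit false

namespace Pool.Agent.Q62.FN

open MvPolynomial

theorem exists_pow_ne (K : Type*) [Field K] [Infinite K] {q : ℕ} (hq : 2 ≤ q) :
    ∃ x : K, x ^ q ≠ x := by
  by_contra h
  push Not at h
  have hne : (Polynomial.X ^ q - Polynomial.X : Polynomial K) ≠ 0 := by
    intro h0
    have h1 := congrArg (fun P : Polynomial K => P.coeff q) h0
    simp only [Polynomial.coeff_sub, Polynomial.coeff_X_pow, if_true, Polynomial.coeff_zero] at h1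
    rw [Polynomial.coeff_X_of_ne_one (by omega)] at h1
    simp at h1
  refine hne (Polynomial.funext fun x => ?_)
  simp [h x]

/-- The point at which the nonvanishing of several polynomials is tested. -/
theorem not_dvd_aux {K : Type*} [Field K] {q : ℕ} (hq : 2 ≤ q) (h2 : (2 : K) ≠ 0)
    {x : K} (hx : x ^ q ≠ x) (m : ℕ) (k : ℕ) :
    ¬ surf K q m ∣ 2 * X 3 ^ k * art K q m 2 := by
  rintro ⟨c, hc⟩
  set v : Fin (m + 4) → K := fun i => if i = 2 then x else if i = 3 then 1 else 0 with hv
  have v2 : v 2 = x := by simp [hv]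
  have v3 : v 3 = 1 := by
    simp only [hv]
    rw [if_neg (n23 m).symm, if_pos trivial]
  have v1 : v 1 = 0 := by
    simp only [hv]
    rw [if_neg (n12 m), if_neg (n13 m)]
  have v0 : v 0 = 0 := by
    simp only [hv]
    rw [if_neg (n02 m), if_neg (n03 m)]
  have h := congrArg (eval v) hc
  have e1 : eval v (art K q m 1) = 0 := by
    rw [art]
    simp only [map_sub, map_pow, map_mul, eval_X, v1, zero_mul, sub_zero]
    exact zero_pow (by omega)
  have e0 : eval v (art K q m 0) = 0 := by
    rw [art]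
    simp only [map_sub, map_pow, map_mul, eval_X, v0, zero_mul, sub_zero]
    exact zero_pow (by omega)
  have e2 : eval v (art K q m 2) = x ^ q - x := by
    rw [art]
    simp only [map_sub, map_pow, map_mul, eval_X, v2, v3, one_pow, mul_one]
  have es : eval v (surf K q m) = 0 := by
    rw [surf]
    simp only [map_add, map_pow, map_mul, e1, e0]
    ring
  rw [map_mul, map_mul, map_mul, map_pow, eval_X, v3, e2, es, map_ofNat] at h
  simp only [one_pow, mul_one, zero_mul, mul_eq_zero] at h
  rcases h with h | h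
  · exact h2 h
  · exact hx (sub_eq_zero.1 h)

theorem not_powers {κ : Type} [Field κ] {q m p : ℕ} (hq : 2 ≤ q)
    (hqK : (q : AlgebraicClosure κ) = 0) (hpK : (p : AlgebraicClosure κ) = 0) (hp : p ≠ 0)
    (h2 : (2 : AlgebraicClosure κ) ≠ 0) : ¬ GaussHasPowers (n := m + 3) p (surf κ q m) := by
  rintro ⟨g, hg, h⟩
  set K := AlgebraicClosure κ with hK
  have hF : geom (n := m + 3) (surf κ q m) = surf K q m := map_surf _ q m
  obtain ⟨x, hx⟩ := exists_pow_ne K hq
  have hirr : Irreducible (surf K q m) := surf_irreducible hq hqK ⟨x, hx⟩ m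
  have hprime : Prime (surf K q m) := hirr.prime
  have hP : (Ideal.span {geom (n := m + 3) (surf κ q m)}).IsPrime := by
    rw [hF]
    exact (Ideal.span_singleton_prime hirr.ne_zero).2 hprime
  have hdom : IsDomain (CoordRing (n := m + 3) (surf κ q m)) := Ideal.Quotient.isDomain _
  have hmk : ∀ f : MvPolynomial (Fin (m + 3 + 1)) K,
      (Ideal.Quotient.mk (Ideal.span {geom (n := m + 3) (surf κ q m)}) f = 0) ↔ surf K q m ∣ f := by
    intro f
    rw [Ideal.Quotient.eq_zero_iff_mem, Ideal.mem_span_singleton, hF]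
  have hinj : Function.Injective (algebraMap (CoordRing (n := m + 3) (surf κ q m))
    (Functions (n := m + 3) (surf κ q m))) := IsFractionRing.injective _ _
  -- the coordinate with index zero does not vanish
  have hg00 : gauss (n := m + 3) (surf κ q m) 0 ≠ 0 := by
    intro h0
    rw [gauss, map_eq_zero_iff _ hinj, hmk, hF] at h0
    rw [pd_zero K hq hqK, dvd_neg] at h0
    apply not_dvd_aux hq h2 hx m (q - 1)
    rw [mul_assoc]
    exact h0.mul_left 2
  have hg0 : g 0 ≠ 0 := by
    intro h0
    have : ∀ j, g j = 0 := by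
      intro j
      have h1 := h 0 j
      rw [h0, zero_pow hp, mul_zero] at h1
      rcases mul_eq_zero.1 h1 with h3 | h3
      · exact absurd h3 hg00
      · exact pow_eq_zero_iff hp |>.1 h3
    have h4 : Ideal.span (Set.range g) = ⊥ := by
      rw [Ideal.span_eq_bot]
      rintro _ ⟨j, rfl⟩
      exact this j
    rw [h4] at hg
    exact bot_ne_top hg
  obtain ⟨a', b', hb', hab⟩ := IsFractionRing.div_surjective (A := CoordRing (n := m + 3) (surf κ q m))
    (g 1 / g 0)
  have hb0 : b' ≠ 0 := nonZeroDivisors.ne_zero hb'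
  have hb1 : algebraMap _ (Functions (n := m + 3) (surf κ q m)) b' ≠ 0 := by
    rw [Ne, map_eq_zero_iff _ hinj]
    exact hb0
  have h10 := h 1 0
  have hkey : gauss (n := m + 3) (surf κ q m) 1 * (algebraMap _ _ b') ^ p =
      gauss (n := m + 3) (surf κ q m) 0 * (algebraMap _ _ a') ^ p := by
    have h5 : algebraMap _ (Functions (n := m + 3) (surf κ q m)) a' * g 0 =
        g 1 * algebraMap _ (Functions (n := m + 3) (surf κ q m)) b' := by
      rw [div_eq_div_iff hb1 hg0] at hab
      exact hab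
    have h6 : (g 0) ^ p ≠ 0 := pow_ne_zero _ hg0
    apply mul_right_cancel₀ h6
    have h7 : (algebraMap _ (Functions (n := m + 3) (surf κ q m)) a') ^ p * g 0 ^ p =
        g 1 ^ p * (algebraMap _ (Functions (n := m + 3) (surf κ q m)) b') ^ p := by
      rw [← mul_pow, h5, mul_pow]
    rw [mul_assoc (gauss (n := m + 3) (surf κ q m) 0), h7]
    linear_combination (algebraMap _ (Functions (n := m + 3) (surf κ q m)) b') ^ p * h10
  obtain ⟨a, rfl⟩ := Ideal.Quotient.mk_surjective a'
  obtain ⟨b, rfl⟩ := Ideal.Quotient.mk_surjective b'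
  rw [gauss, gauss] at hkey
  simp only [← map_pow, ← map_mul] at hkey
  have h8 := hinj hkey
  rw [← sub_eq_zero, ← map_sub, hmk, hF] at h8
  obtain ⟨c, hc⟩ := h8
  have h9 := dvd_of_pd_eq K hq hqK m p hpK a b c hc
  rcases hprime.dvd_or_dvd h9 with h10 | h10
  · exact not_dvd_aux hq h2 hx m _ h10
  · apply hb0
    rw [hmk]
    exact hprime.dvd_of_dvd_pow h10

theorem main_one (n p : ℕ) (hn : 3 ≤ n) (hp : p.Prime) (hp2 : p ≠ 2) (κ : Type) [Field κ]
    [Fintype κ] [CharP κ p] :
    ∃ F : MvPolynomial (Fin (n + 1)) κ, (∃ d, 0 < d ∧ F.IsHomogeneous d) ∧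
      Irreducible (geom F) ∧ FrobeniusNonclassical F ∧ ¬ GaussHasPowers p F := by
  obtain ⟨m, rfl⟩ := Nat.exists_eq_add_of_le' hn
  have : Fact p.Prime := ⟨hp⟩
  set q := Fintype.card κ with hqdef
  obtain ⟨e, he, hqe⟩ := FiniteField.card κ p
  have hq2 : 2 ≤ q := by
    have := Fintype.one_lt_card (α := κ)
    omega
  have hqκ : (q : κ) = 0 := Nat.cast_card_eq_zero κ
  have hpκ : (p : κ) = 0 := CharP.cast_eq_zero κ p
  have hqK : (q : AlgebraicClosure κ) = 0 := by
    rw [← map_natCast (algebraMap κ (AlgebraicClosure κ)), hqκ, map_zero]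
  have hpK : (p : AlgebraicClosure κ) = 0 := by
    rw [← map_natCast (algebraMap κ (AlgebraicClosure κ)), hpκ, map_zero]
  have h2 : (2 : AlgebraicClosure κ) ≠ 0 := by
    have : CharP (AlgebraicClosure κ) p := charP_of_injective_algebraMap
      (algebraMap κ (AlgebraicClosure κ)).injective p
    intro h
    have h' : ((2 : ℕ) : AlgebraicClosure κ) = 0 := by exact_mod_cast h
    rw [CharP.cast_eq_zero_iff (AlgebraicClosure κ) p] at h'
    exact hp2 ((Nat.prime_dvd_prime_iff_eq hp Nat.prime_two).1 h')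
  refine ⟨surf κ q m, ⟨2 * q, by omega, surf_hom κ (by omega) m⟩, ?_, surf_dvd κ hq2 hqκ m,
    not_powers hq2 hqK hpK hp.ne_zero h2⟩
  rw [geom, map_surf]
  exact surf_irreducible hq2 hqK (exists_pow_ne _ hq2) m

end Pool.Agent.Q62.FN
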