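import Pool.Agent.Q62.FN.Eis

/-!
# The hypersurface `(x ^ q - x w ^ (q - 1)) ^ 2 + (y ^ q - y w ^ (q - 1)) (z ^ q - z w ^ (q - 1)) = 0`
-/

set_option autoImplicit false

namespace Pool.Agent.Q62.FN

open MvPolynomial

/-- The form `x_i ^ q - x_i x_3 ^ (q - 1)`. -/
noncomputable def art (K : Type*) [CommRing K] (q m : ℕ) (i : Fin (m + 4)) :
    MvPolynomial (Fin (m + 4)) K := X i ^ q - X i * X 3 ^ (q - 1)

/-- The form `(x_1 ^ q - x_1 x_3 ^ (q - 1)) ^ 2 +
(x_2 ^ q - x_2 x_3 ^ (q - 1)) (x_0 ^ q - x_0 x_3 ^ (q - 1))`. -/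
noncomputable def surf (K : Type*) [CommRing K] (q m : ℕ) : MvPolynomial (Fin (m + 4)) K :=
  art K q m 1 ^ 2 + art K q m 2 * art K q m 0

theorem art_hom (K : Type*) [CommRing K] {q : ℕ} (hq : 1 ≤ q) (m : ℕ) (i : Fin (m + 4)) :
    (art K q m i).IsHomogeneous q := by
  rw [art]
  refine (isHomogeneous_X_pow _ _).sub ?_
  have := (isHomogeneous_X K i).mul (isHomogeneous_X_pow (R := K) (3 : Fin (m + 4)) (q - 1))
  rwa [show 1 + (q - 1) = q by omega] at this

theorem surf_hom (K : Type*) [CommRing K] {q : ℕ} (hq : 1 ≤ q) (m : ℕ) :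
    (surf K q m).IsHomogeneous (2 * q) := by
  rw [surf]
  refine IsHomogeneous.add ?_ ?_
  · have := (art_hom K hq m 1).pow 2
    rwa [mul_comm] at this
  · have := (art_hom K hq m 2).mul (art_hom K hq m 0)
    rwa [← two_mul] at this

theorem map_surf {κ K : Type*} [CommRing κ] [CommRing K] (f : κ →+* K) (q m : ℕ) :
    map f (surf κ q m) = surf K q m := by
  simp [surf, art]

theorem D_art (K : Type*) [CommRing K] {q : ℕ} (hq : 2 ≤ q) (hqK : (q : K) = 0) (m : ℕ)
    (D : Derivation K (MvPolynomial (Fin (m + 4)) K) (MvPolynomial (Fin (m + 4)) K))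
    (i : Fin (m + 4)) :
    D (art K q m i) = X i * X 3 ^ (q - 2) * D (X 3) - X 3 ^ (q - 1) * D (X i) := by
  have hC : ((q : ℕ) : MvPolynomial (Fin (m + 4)) K) = 0 := by
    rw [← map_natCast (C : K →+* MvPolynomial (Fin (m + 4)) K), hqK, map_zero]
  have h1 : ((q - 1 : ℕ) : MvPolynomial (Fin (m + 4)) K) = -1 := by
    have : ((q - 1 + 1 : ℕ) : MvPolynomial (Fin (m + 4)) K) = 0 := by
      rw [Nat.sub_add_cancel (by omega), hC]
    rw [Nat.cast_add, Nat.cast_one] at this
    exact eq_neg_of_add_eq_zero_left this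
  rw [art, map_sub, Derivation.leibniz, Derivation.leibniz_pow, Derivation.leibniz_pow]
  simp only [nsmul_eq_mul, smul_eq_mul, hC, h1, show q - 1 - 1 = q - 2 by omega]
  ring

theorem art_frob (K : Type*) [CommRing K] {q : ℕ} (hq : 2 ≤ q) (hqK : (q : K) = 0) (m : ℕ)
    (i : Fin (m + 4)) :
    mkDerivation K (fun j => (X j ^ q : MvPolynomial (Fin (m + 4)) K)) (art K q m i) =
      - X 3 ^ (q - 1) * art K q m i := by
  rw [D_art K hq hqK, mkDerivation_X, mkDerivation_X, art]
  have h : (X 3 : MvPolynomial (Fin (m + 4)) K) ^ (q - 2) * X 3 ^ q =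
      X 3 ^ (q - 1) * X 3 ^ (q - 1) := by
    rw [← pow_add, ← pow_add]
    congr 1
    omega
  linear_combination X i * h

theorem surf_frob (K : Type*) [CommRing K] {q : ℕ} (hq : 2 ≤ q) (hqK : (q : K) = 0) (m : ℕ) :
    mkDerivation K (fun j => (X j ^ q : MvPolynomial (Fin (m + 4)) K)) (surf K q m) =
      - (2 * X 3 ^ (q - 1)) * surf K q m := by
  rw [surf, map_add, Derivation.leibniz, Derivation.leibniz_pow, art_frob K hq hqK,
    art_frob K hq hqK, art_frob K hq hqK]
  simp only [nsmul_eq_mul, smul_eq_mul]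
  push_cast
  ring

theorem sum_pderiv (K : Type*) [CommRing K] {m : ℕ} (g : Fin m → MvPolynomial (Fin m) K)
    (F : MvPolynomial (Fin m) K) : ∑ i, g i * pderiv i F = mkDerivation K g F := by
  have h : ∑ i, g i • (pderiv i : Derivation K (MvPolynomial (Fin m) K) _) = mkDerivation K g := by
    refine derivation_ext fun j => ?_
    rw [mkDerivation_X, ← Derivation.coeFnAddMonoidHom_apply, map_sum, Finset.sum_apply]
    simp [pderiv_X, Pi.single_apply]
  rw [← h, ← Derivation.coeFnAddMonoidHom_apply, map_sum, Finset.sum_apply]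
  simp

theorem surf_dvd (K : Type*) [CommRing K] {q : ℕ} (hq : 2 ≤ q) (hqK : (q : K) = 0) (m : ℕ) :
    surf K q m ∣ ∑ i, X i ^ q * pderiv i (surf K q m) := by
  rw [sum_pderiv, surf_frob K hq hqK]
  exact Dvd.intro_left _ rfl

/-- A polynomial which does not contain the variable `x_0` and divides one which is monic
in `x_0`. -/
theorem isUnit_of_dvd {K : Type*} [Field K] {n : ℕ} {c a b : MvPolynomial (Fin (n + 1)) K}
    {b' : MvPolynomial (Fin n) K} (hb : finSuccEquiv K n b = Polynomial.C b') (hb0 : b' ≠ 0)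
    (ha : (finSuccEquiv K n a).Monic) (h1 : c ∣ a) (h2 : c ∣ b) : IsUnit c := by
  have h3 : finSuccEquiv K n c ∣ Polynomial.C b' := hb ▸ map_dvd (finSuccEquiv K n) h2
  have h4 : (finSuccEquiv K n c).natDegree = 0 := by
    have := Polynomial.natDegree_le_of_dvd h3 (Polynomial.C_ne_zero.2 hb0)
    rw [Polynomial.natDegree_C] at this
    omega
  obtain ⟨c', hc'⟩ := Polynomial.natDegree_eq_zero.1 h4
  have h5 : Polynomial.C c' ∣ finSuccEquiv K n a := hc' ▸ map_dvd (finSuccEquiv K n) h1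
  have h6 : IsUnit c' := (ha.C_dvd_iff_isUnit).1 h5
  have h7 : IsUnit (finSuccEquiv K n c) := hc' ▸ Polynomial.isUnit_C.2 h6
  exact (MulEquiv.isUnit_map (finSuccEquiv K n)).1 h7

theorem surf_irreducible {K : Type*} [Field K] {q : ℕ} (hq : 2 ≤ q) (hqK : (q : K) = 0)
    (hx : ∃ x : K, x ^ q ≠ x) (m : ℕ) : Irreducible (surf K q m) := by
  obtain ⟨x, hx⟩ := hx
  obtain ⟨a, ha⟩ : ∃ a : MvPolynomial (Fin (m + 3)) K,
    a = (X 0 ^ q - X 0 * X 2 ^ (q - 1)) ^ 2 := ⟨_, rfl⟩
  obtain ⟨b, hb⟩ : ∃ b : MvPolynomial (Fin (m + 3)) K,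
    b = X 1 ^ q - X 1 * X 2 ^ (q - 1) := ⟨_, rfl⟩
  obtain ⟨r, hr⟩ : ∃ r : MvPolynomial (Fin (m + 3)) K, r = X 2 ^ (q - 1) := ⟨_, rfl⟩
  have key : finSuccEquiv K (m + 3) (surf K q m) =
      Polynomial.C b * Polynomial.X ^ q - Polynomial.C (b * r) * Polynomial.X +
        Polynomial.C a := by
    have e1 : (1 : Fin (m + 3 + 1)) = Fin.succ 0 := rfl
    have e2 : (2 : Fin (m + 3 + 1)) = Fin.succ 1 := rfl
    have e3 : (3 : Fin (m + 3 + 1)) = Fin.succ 2 := rfl
    rw [surf, art, art, art]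
    simp only [map_add, map_mul, map_sub, map_pow]
    rw [e1, e2, e3, finSuccEquiv_X_succ, finSuccEquiv_X_succ, finSuccEquiv_X_succ,
      finSuccEquiv_X_zero, ha, hb, hr]
    simp only [map_mul, map_sub, map_pow]
    ring
  have hirr : Irreducible (finSuccEquiv K (m + 3) (surf K q m)) := by
    rw [key]
    set v : Fin (m + 3) → K := fun i => if i = 0 then x else if i = 2 then 1 else 0 with hv
    have v0 : v 0 = x := by simp [hv]
    have n12 : (2 : Fin (m + 3)) ≠ 1 := by
      intro h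
      have := congrArg Fin.val h
      rw [Fin.val_two, Fin.val_one] at this
      omega
    have n10' : (1 : Fin (m + 3)) ≠ 0 := by simp
    have n20' : (2 : Fin (m + 3)) ≠ 0 := by
      intro h
      have := congrArg Fin.val h
      rw [Fin.val_two, Fin.val_zero] at this
      omega
    have v1 : v 1 = 0 := by
      simp only [hv]
      rw [if_neg n10', if_neg n12.symm]
    have v2 : v 2 = 1 := by
      simp only [hv]
      rw [if_neg n20', if_pos trivial]
    refine irreducible_AS v 1 hq ?_ ?_ ?_ ?_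
    · rw [hb]
      simp [v1, v2]
      omega
    · rw [ha]
      simp only [map_pow, map_sub, map_mul, eval_X, v0, v2, one_pow, mul_one]
      exact pow_ne_zero _ (sub_ne_zero.2 hx)
    · rw [hb]
      simp only [map_sub, Derivation.leibniz, Derivation.leibniz_pow, pderiv_X_self,
        pderiv_X_of_ne n12, smul_eq_mul, mul_one, nsmul_eq_mul,
        map_mul, map_pow, eval_X, v1, map_natCast, hqK, zero_mul, zero_sub]
      simp [v2]
    · intro c h1 h2
      have e0 : (0 : Fin (m + 2 + 1)) = 0 := rfl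
      refine isUnit_of_dvd (n := m + 2) (a := a) (b := b)
        (b' := X 0 ^ q - X 0 * X 1 ^ (q - 1)) ?_ ?_ ?_ h1 h2
      · rw [hb]
        have e1 : (1 : Fin (m + 2 + 1)) = Fin.succ 0 := rfl
        have e2 : (2 : Fin (m + 2 + 1)) = Fin.succ 1 := rfl
        simp only [map_sub, map_mul, map_pow]
        rw [e1, e2, finSuccEquiv_X_succ, finSuccEquiv_X_succ]
      · intro h
        have h3 := congrArg (eval (fun i : Fin (m + 2) => if i = 0 then (1 : K) else 0)) h
        have n10 : (1 : Fin (m + 2)) ≠ 0 := by simp [Fin.ext_iff]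
        simp only [map_sub, map_mul, map_pow, eval_X, if_true, if_neg n10, one_pow, map_zero] at h3
        rw [zero_pow (by omega)] at h3
        simp at h3
      · rw [ha, map_pow]
        refine Polynomial.Monic.pow ?_ 2
        have e2 : (2 : Fin (m + 2 + 1)) = Fin.succ 1 := rfl
        simp only [map_sub, map_mul, map_pow]
        rw [e2, finSuccEquiv_X_succ, finSuccEquiv_X_zero]
        have : (Polynomial.X ^ q - Polynomial.X * Polynomial.C (X 1) ^ (q - 1) :
            Polynomial (MvPolynomial (Fin (m + 2)) K)) =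
            Polynomial.X ^ q + (Polynomial.C (-(X 1 ^ (q - 1))) * Polynomial.X) := by
          simp only [map_neg, map_pow]
          ring
        rw [this]
        refine Polynomial.monic_X_pow_add ?_
        refine lt_of_le_of_lt (Polynomial.degree_C_mul_X_le _) ?_
        exact_mod_cast (by omega : 1 < q)
  exact (MulEquiv.irreducible_iff (finSuccEquiv K (m + 3))).1 hirr

/-! ### The partial derivatives -/

theorem pd_art_self (K : Type*) [CommRing K] {q : ℕ} (hq : 2 ≤ q) (hqK : (q : K) = 0) (m : ℕ)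
    {i : Fin (m + 4)} (hi : i ≠ 3) : pderiv i (art K q m i) = - X 3 ^ (q - 1) := by
  rw [D_art K hq hqK, pderiv_X_of_ne hi.symm, pderiv_X_self]
  ring

theorem pd_art_ne (K : Type*) [CommRing K] {q : ℕ} (hq : 2 ≤ q) (hqK : (q : K) = 0) (m : ℕ)
    {i j : Fin (m + 4)} (hi : i ≠ 3) (hij : i ≠ j) : pderiv i (art K q m j) = 0 := by
  rw [D_art K hq hqK, pderiv_X_of_ne hi.symm, pderiv_X_of_ne hij.symm]
  ring

theorem n13 (m : ℕ) : (1 : Fin (m + 4)) ≠ 3 := by
  intro h
  have := congrArg Fin.val h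
  have h3 : ((3 : Fin (m + 4)) : ℕ) = 3 := rfl
  rw [Fin.val_one, h3] at this
  omega

theorem n03 (m : ℕ) : (0 : Fin (m + 4)) ≠ 3 := by
  intro h
  have := congrArg Fin.val h
  have h3 : ((3 : Fin (m + 4)) : ℕ) = 3 := rfl
  rw [Fin.val_zero, h3] at this
  omega

theorem n23 (m : ℕ) : (2 : Fin (m + 4)) ≠ 3 := by
  intro h
  have := congrArg Fin.val h
  have h3 : ((3 : Fin (m + 4)) : ℕ) = 3 := rfl
  rw [Fin.val_two, h3] at this
  omega

theorem n12 (m : ℕ) : (1 : Fin (m + 4)) ≠ 2 := by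
  intro h
  have := congrArg Fin.val h
  rw [Fin.val_one, Fin.val_two] at this
  omega

theorem n02 (m : ℕ) : (0 : Fin (m + 4)) ≠ 2 := by
  intro h
  have := congrArg Fin.val h
  rw [Fin.val_zero, Fin.val_two] at this
  omega

theorem n01 (m : ℕ) : (0 : Fin (m + 4)) ≠ 1 := by
  intro h
  have := congrArg Fin.val h
  rw [Fin.val_zero, Fin.val_one] at this
  omega

theorem pd_one (K : Type*) [CommRing K] {q : ℕ} (hq : 2 ≤ q) (hqK : (q : K) = 0) (m : ℕ) :
    pderiv 1 (surf K q m) = - (2 * X 3 ^ (q - 1) * art K q m 1) := by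
  rw [surf, map_add, Derivation.leibniz, Derivation.leibniz_pow,
    pd_art_self K hq hqK m (n13 m), pd_art_ne K hq hqK m (n13 m) (n12 m),
    pd_art_ne K hq hqK m (n13 m) (n01 m).symm]
  simp only [nsmul_eq_mul, smul_eq_mul]
  push_cast
  ring

theorem pd_zero (K : Type*) [CommRing K] {q : ℕ} (hq : 2 ≤ q) (hqK : (q : K) = 0) (m : ℕ) :
    pderiv 0 (surf K q m) = - (X 3 ^ (q - 1) * art K q m 2) := by
  rw [surf, map_add, Derivation.leibniz, Derivation.leibniz_pow,
    pd_art_self K hq hqK m (n03 m), pd_art_ne K hq hqK m (n03 m) (n02 m),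
    pd_art_ne K hq hqK m (n03 m) (n01 m)]
  simp only [nsmul_eq_mul, smul_eq_mul]
  ring

/-- If `c ^ p`-multiples of the derivatives agree modulo `F`, then `F` divides a multiple of
`b ^ p`. -/
theorem dvd_of_pd_eq (K : Type*) [Field K] {q : ℕ} (hq : 2 ≤ q) (hqK : (q : K) = 0) (m : ℕ) (p : ℕ)
    (hpK : (p : K) = 0) (a b c : MvPolynomial (Fin (m + 4)) K)
    (h : pderiv 1 (surf K q m) * b ^ p - pderiv 0 (surf K q m) * a ^ p = surf K q m * c) :
    surf K q m ∣ 2 * X 3 ^ (3 * (q - 1)) * art K q m 2 * b ^ p := by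
  have hpw : ∀ (i : Fin (m + 4)) (x : MvPolynomial (Fin (m + 4)) K), pderiv i (x ^ p) = 0 := by
    intro i x
    rw [Derivation.leibniz_pow, nsmul_eq_mul]
    have : ((p : ℕ) : MvPolynomial (Fin (m + 4)) K) = 0 := by
      rw [← map_natCast (C : K →+* MvPolynomial (Fin (m + 4)) K), hpK, map_zero]
    rw [this, zero_mul]
  have e1 := pd_one K hq hqK m
  have e0 := pd_zero K hq hqK m
  -- the two derivatives of the equation
  have hX : ∀ i : Fin (m + 4), i ≠ 3 → pderiv i (X 3 ^ (q - 1) : MvPolynomial (Fin (m + 4)) K) = 0 := by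
    intro i hi
    rw [Derivation.leibniz_pow, pderiv_X_of_ne hi.symm, smul_zero, smul_zero]
  have h2 : ∀ i : Fin (m + 4), pderiv i (2 : MvPolynomial (Fin (m + 4)) K) = 0 := by
    intro i
    rw [← map_ofNat (C : K →+* MvPolynomial (Fin (m + 4)) K), pderiv_C]
  have d11 : pderiv 1 (pderiv 1 (surf K q m)) = 2 * X 3 ^ (q - 1) * X 3 ^ (q - 1) := by
    rw [e1, map_neg, Derivation.leibniz, Derivation.leibniz, pd_art_self K hq hqK m (n13 m),
      hX 1 (n13 m), h2]
    simp only [smul_eq_mul]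
    ring
  have d01 : pderiv 0 (pderiv 1 (surf K q m)) = 0 := by
    rw [e1, map_neg, Derivation.leibniz, Derivation.leibniz, pd_art_ne K hq hqK m (n03 m) (n01 m),
      hX 0 (n03 m), h2]
    simp
  have d10 : pderiv 1 (pderiv 0 (surf K q m)) = 0 := by
    rw [e0, map_neg, Derivation.leibniz, pd_art_ne K hq hqK m (n13 m) (n12 m), hX 1 (n13 m)]
    simp
  have d00 : pderiv 0 (pderiv 0 (surf K q m)) = 0 := by
    rw [e0, map_neg, Derivation.leibniz, pd_art_ne K hq hqK m (n03 m) (n02 m), hX 0 (n03 m)]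
    simp
  have k1 := congrArg (pderiv 1) h
  have k0 := congrArg (pderiv 0) h
  rw [map_sub, Derivation.leibniz, Derivation.leibniz, Derivation.leibniz, hpw, hpw, d11, d10] at k1
  rw [map_sub, Derivation.leibniz, Derivation.leibniz, Derivation.leibniz, hpw, hpw, d01, d00] at k0
  simp only [smul_eq_mul, mul_zero, zero_add, sub_zero] at k1 k0
  -- `F_0 k1 - F_1 k0`
  refine ⟨- (pderiv 0 (surf K q m) * pderiv 1 c - pderiv 1 (surf K q m) * pderiv 0 c), ?_⟩
  have hpow : (X 3 : MvPolynomial (Fin (m + 4)) K) ^ (3 * (q - 1)) =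
      X 3 ^ (q - 1) * X 3 ^ (q - 1) * X 3 ^ (q - 1) := by
    rw [← pow_add, ← pow_add]
    congr 1
    ring
  rw [hpow]
  have k2 : pderiv 0 (surf K q m) * (b ^ p * (2 * X 3 ^ (q - 1) * X 3 ^ (q - 1))) =
      surf K q m * (pderiv 0 (surf K q m) * pderiv 1 c - pderiv 1 (surf K q m) * pderiv 0 c) := by
    linear_combination pderiv 0 (surf K q m) * k1 - pderiv 1 (surf K q m) * k0
  rw [e0] at k2
  rw [e0]
  linear_combination -k2

end Pool.Agent.Q62.FN
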